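import Pool.Agent.X160.Pd.Est

/-!
# Counting the connected sets which are not stars
-/

set_option autoImplicit false
open Finset Classical

namespace Pool.Agent.X160.Pd

variable {V : Type*} [Fintype V] (T : SimpleGraph V)

/-- Sets reachable by adding vertices of degree at most D. -/
noncomputable def R (D : ℕ) : ℕ → Finset V → Finset (Finset V)
  | 0, S => {S}
  | j + 1, S => (univ.filter fun y => y ∉ S ∧ d T y ≤ D ∧ ∃ x ∈ S, T.Adj x y).biUnion
      fun y => R D j (insert y S)

theorem card_R (D k : ℕ) : ∀ (j : ℕ) (S : Finset V), (∀ x ∈ S, d T x ≤ D) → S.card + j ≤ k →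
    (R T D j S).card ≤ (k * D) ^ j := by
  intro j
  induction j with
  | zero => intro S _ _; simp [R]
  | succ j ih =>
    intro S hS hk
    rw [R]
    have hb : (univ.filter fun y => y ∉ S ∧ d T y ≤ D ∧ ∃ x ∈ S, T.Adj x y).card ≤ k * D := by
      have hsub : (univ.filter fun y => y ∉ S ∧ d T y ≤ D ∧ ∃ x ∈ S, T.Adj x y) ⊆
          S.biUnion (nb T) := by
        intro y hy
        obtain ⟨-, -, -, x, hx, hxy⟩ := mem_filter.1 hy
        exact mem_biUnion.2 ⟨x, hx, (mem_nb T).2 hxy⟩
      calc _ ≤ (S.biUnion (nb T)).card := card_le_card hsub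
        _ ≤ ∑ x ∈ S, (nb T x).card := card_biUnion_le
        _ ≤ ∑ _x ∈ S, D := sum_le_sum fun x hx => hS x hx
        _ = S.card * D := by rw [sum_const, smul_eq_mul]
        _ ≤ k * D := Nat.mul_le_mul_right _ (by omega)
    calc _ ≤ ∑ y ∈ univ.filter fun y => y ∉ S ∧ d T y ≤ D ∧ ∃ x ∈ S, T.Adj x y,
            (R T D j (insert y S)).card := card_biUnion_le
      _ ≤ ∑ _y ∈ univ.filter fun y => y ∉ S ∧ d T y ≤ D ∧ ∃ x ∈ S, T.Adj x y, (k * D) ^ j := by
          refine sum_le_sum fun y hy => ?_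
          obtain ⟨-, hyS, hyD, -⟩ := mem_filter.1 hy
          refine ih _ (fun x hx => ?_) ?_
          · rcases mem_insert.1 hx with rfl | hx
            · exact hyD
            · exact hS x hx
          · rw [card_insert_of_notMem hyS]; omega
      _ ≤ (k * D) * (k * D) ^ j := by
          rw [sum_const, smul_eq_mul]
          exact Nat.mul_le_mul_right _ hb
      _ = (k * D) ^ (j + 1) := by ring

/-- A connected set has an edge leaving each proper nonempty subset. -/
theorem exists_boundary (U S : Finset V) (hU : (T.induce (U : Set V)).Connected) (hSU : S ⊆ U)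
    (hne : S.Nonempty) (hlt : ∃ u ∈ U, u ∉ S) : ∃ x ∈ S, ∃ y ∈ U, y ∉ S ∧ T.Adj x y := by
  obtain ⟨s, hs⟩ := hne
  obtain ⟨u, hu, huS⟩ := hlt
  obtain ⟨p⟩ := hU.preconnected ⟨s, hSU hs⟩ ⟨u, hu⟩
  obtain ⟨e, -, h1, h2⟩ := p.exists_boundary_dart {x | (x : V) ∈ S} hs huS
  exact ⟨e.fst, h1, e.snd, e.snd.2, h2, e.adj⟩

theorem mem_R (D : ℕ) (U : Finset V) (hU : (T.induce (U : Set V)).Connected)
    (hD : ∀ u ∈ U, d T u ≤ D) : ∀ (j : ℕ) (S : Finset V), S ⊆ U → S.Nonempty →
    U.card = S.card + j → U ∈ R T D j S := by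
  intro j
  induction j with
  | zero =>
    intro S hSU _ hc
    rw [R, mem_singleton]
    exact (eq_of_subset_of_card_le hSU (by omega)).symm
  | succ j ih =>
    intro S hSU hne hc
    have hlt : ∃ u ∈ U, u ∉ S := by
      by_contra h
      push Not at h
      have := card_le_card (fun u hu => h u hu : U ⊆ S)
      omega
    obtain ⟨x, hx, y, hy, hyS, hxy⟩ := exists_boundary T U S hU hSU hne hlt
    rw [R, mem_biUnion]
    refine ⟨y, mem_filter.2 ⟨mem_univ _, hyS, hD y hy, x, hx, hxy⟩, ?_⟩
    refine ih _ (insert_subset hy hSU) (insert_nonempty _ _) ?_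
    rw [card_insert_of_notMem hyS]
    omega

/-- The connected sets of `k` vertices. -/
noncomputable def K (k : ℕ) : Finset (Finset V) :=
  univ.filter fun U => U.card = k ∧ (T.induce (U : Set V)).Connected

/-- Stars. -/
def SL (U : Finset V) : Prop := ∃ v ∈ U, ∀ u ∈ U, u ≠ v → T.Adj v u

theorem card_nonstar (r : ℕ) : ((K T (r + 3)).filter fun U => ¬ SL T U).card ≤
    ∑ v, ∑ w ∈ (nb T v).filter (fun w => d T w ≤ d T v), d T w * ((r + 3) * d T v) ^ r := by
  have hsub : ((K T (r + 3)).filter fun U => ¬ SL T U) ⊆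
      univ.biUnion fun v => ((nb T v).filter (fun w => d T w ≤ d T v)).biUnion fun w =>
        ((nb T w).filter (fun x => d T x ≤ d T v)).biUnion fun x =>
          R T (d T v) r {v, w, x} := by
    intro U hU
    obtain ⟨hK, hns⟩ := mem_filter.1 hU
    obtain ⟨-, hcard, hconn⟩ := mem_filter.1 hK
    have hne : U.Nonempty := card_pos.1 (by omega)
    obtain ⟨v, hvU, hmax⟩ := exists_max_image U (d T) hne
    have hlt : ∃ u ∈ U, u ∉ U.filter (fun u => u = v ∨ T.Adj v u) := by
      by_contra h
      push Not at h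
      refine hns ⟨v, hvU, fun u hu huv => ?_⟩
      exact ((mem_filter.1 (h u hu)).2).resolve_left huv
    obtain ⟨w, hw, x, hx, hxS, hwx⟩ := exists_boundary T U (U.filter (fun u => u = v ∨ T.Adj v u))
      hconn (filter_subset _ _) ⟨v, mem_filter.2 ⟨hvU, Or.inl rfl⟩⟩ hlt
    obtain ⟨hwU, hwv⟩ := mem_filter.1 hw
    have hxn : x ≠ v ∧ ¬ T.Adj v x := by
      rw [mem_filter] at hxS
      push Not at hxS
      exact hxS hx
    have hvw : T.Adj v w := by
      rcases hwv with rfl | h
      · exact absurd hwx hxn.2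
      · exact h
    refine mem_biUnion.2 ⟨v, mem_univ _, mem_biUnion.2 ⟨w, mem_filter.2
      ⟨(mem_nb T).2 hvw, hmax w hwU⟩, mem_biUnion.2 ⟨x, mem_filter.2
      ⟨(mem_nb T).2 hwx, hmax x hx⟩, ?_⟩⟩⟩
    refine mem_R T _ U hconn hmax r _ ?_ (insert_nonempty _ _) ?_
    · intro y hy
      simp only [mem_insert, mem_singleton] at hy
      rcases hy with rfl | rfl | rfl
      · exact hvU
      · exact hwU
      · exact hx
    · have h3 : ({v, w, x} : Finset V).card = 3 :=
        card_eq_three.2 ⟨v, w, x, hvw.ne, hxn.1.symm, hwx.ne, rfl⟩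
      rw [h3, hcard]
      omega
  refine (card_le_card hsub).trans (card_biUnion_le.trans (sum_le_sum fun v _ => ?_))
  refine card_biUnion_le.trans (sum_le_sum fun w hw => ?_)
  refine card_biUnion_le.trans ?_
  calc ∑ x ∈ (nb T w).filter (fun x => d T x ≤ d T v), (R T (d T v) r {v, w, x}).card
      ≤ ∑ _x ∈ (nb T w).filter (fun x => d T x ≤ d T v), ((r + 3) * d T v) ^ r := by
        refine sum_le_sum fun x hx => card_R T _ _ _ _ (fun y hy => ?_) ?_
        · simp only [mem_insert, mem_singleton] at hy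
          rcases hy with rfl | rfl | rfl
          · exact le_rfl
          · exact (mem_filter.1 hw).2
          · exact (mem_filter.1 hx).2
        · have := card_le_three (a := v) (b := w) (c := x)
          omega
    _ ≤ _ := by
        rw [sum_const, smul_eq_mul]
        exact Nat.mul_le_mul_right _ (card_le_card (filter_subset _ _))

end Pool.Agent.X160.Pd
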