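import Mathlib

/-!
# A weighted estimate for edges of trees
-/

set_option autoImplicit false
open Finset Classical

namespace Pool.Agent.X160.Pd

variable {V : Type*} [Fintype V] (T : SimpleGraph V)

/-- The neighbours. -/
noncomputable def nb (v : V) : Finset V := univ.filter fun w => T.Adj v w

/-- The degree. -/
noncomputable def d (v : V) : ℕ := (nb T v).card

theorem mem_nb {v w : V} : w ∈ nb T v ↔ T.Adj v w := by simp [nb]

/-- In a tree there is a parent function. -/
theorem exists_parent (hT : T.IsTree) : ∃ par : V → V, ∀ v w, T.Adj v w → w = par v ∨ v = par w := by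
  obtain ⟨r⟩ := hT.connected.nonempty
  have h := fun v => (hT.existsUnique_path v r).exists
  choose p hp using h
  refine ⟨fun v => (p v).snd, fun v w hvw => ?_⟩
  by_cases hw : w ∈ (p v).support
  · exact Or.inl (hT.isAcyclic.eq_snd_of_adj_start (hp v) hvw hw)
  · right
    have h1 : (SimpleGraph.Walk.cons hvw.symm (p v)).IsPath :=
      (SimpleGraph.Walk.cons_isPath_iff _ _).2 ⟨hp v, hw⟩
    have h2 := (hT.existsUnique_path w r).unique h1 (hp w)
    show v = (p w).snd
    rw [← h2]
    simp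

/-- The weighted estimate. -/
theorem est (hT : T.IsTree) (r q D : ℕ) (hq : 1 ≤ q) (hD : 1 ≤ D) :
    (∑ v, ∑ w ∈ (nb T v).filter (fun w => d T w ≤ d T v), (d T v : ℝ) ^ r * d T w) ≤
      Fintype.card V * (D : ℝ) ^ (r + 2) + (1 / D + 1 / q + (q : ℝ) ^ (r + 1) / D) *
        ∑ v ∈ univ.filter (fun v => D < q * d T v), (d T v : ℝ) ^ (r + 2) := by
  obtain ⟨par, hpar⟩ := exists_parent T hT
  have hD0 : (0 : ℝ) < D := by exact_mod_cast hD
  have hq0 : (0 : ℝ) < q := by exact_mod_cast hq
  have hq1 : (1 : ℝ) ≤ q := by exact_mod_cast hq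
  set f1 : V → V → ℝ := fun v _ => if d T v ≤ D then (D : ℝ) ^ (r + 1) else 0 with hf1
  set f2 : V → V → ℝ := fun v w => if w = par v then
    (if D < q * d T v then (d T v : ℝ) ^ (r + 2) / D else 0) else 0 with hf2
  set f3 : V → V → ℝ := fun v _ => if D < d T v then (d T v : ℝ) ^ (r + 1) / q else 0 with hf3
  set f4 : V → V → ℝ := fun v w => if v = par w then
    (if D < q * d T w then (q : ℝ) ^ (r + 1) * (d T w : ℝ) ^ (r + 2) / D else 0) else 0 with hf4
  have h1 : ∀ v w, 0 ≤ f1 v w := fun v w => by rw [hf1]; simp only; split_ifs <;> positivity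
  have h2 : ∀ v w, 0 ≤ f2 v w := fun v w => by rw [hf2]; simp only; split_ifs <;> positivity
  have h3 : ∀ v w, 0 ≤ f3 v w := fun v w => by rw [hf3]; simp only; split_ifs <;> positivity
  have h4 : ∀ v w, 0 ≤ f4 v w := fun v w => by rw [hf4]; simp only; split_ifs <;> positivity
  have key : ∀ v, ∀ w ∈ (nb T v).filter (fun w => d T w ≤ d T v),
      (d T v : ℝ) ^ r * d T w ≤ f1 v w + f2 v w + f3 v w + f4 v w := by
    intro v w hw
    obtain ⟨hvw, hle⟩ := mem_filter.1 hw
    rw [mem_nb] at hvw
    have hle' : (d T w : ℝ) ≤ d T v := by exact_mod_cast hle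
    have hw0 : (0 : ℝ) ≤ d T w := Nat.cast_nonneg _
    have hv0 : (0 : ℝ) ≤ d T v := Nat.cast_nonneg _
    rcases le_or_gt (d T v) D with hvD | hvD
    · have e1 : f1 v w = (D : ℝ) ^ (r + 1) := by rw [hf1]; simp only; rw [if_pos hvD]
      have e2 : (d T v : ℝ) ≤ D := by exact_mod_cast hvD
      have e3 : (d T v : ℝ) ^ r * d T w ≤ (D : ℝ) ^ (r + 1) := by
        rw [pow_succ]
        exact mul_le_mul (pow_le_pow_left₀ hv0 e2 r) (hle'.trans e2) hw0 (by positivity)
      linarith [h2 v w, h3 v w, h4 v w]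
    · have hvD' : (D : ℝ) < d T v := by exact_mod_cast hvD
      rcases hpar v w hvw with hp | hp
      · have e1 : f2 v w = (d T v : ℝ) ^ (r + 2) / D := by
          rw [hf2]; simp only; rw [if_pos hp, if_pos (by nlinarith)]
        have e2 : (d T v : ℝ) ^ r * d T w ≤ (d T v : ℝ) ^ (r + 2) / D := by
          rw [le_div_iff₀ hD0, pow_succ, pow_succ]
          have := mul_le_mul hle' hvD'.le hD0.le hv0
          have h5 : (0 : ℝ) ≤ (d T v : ℝ) ^ r := by positivity
          nlinarith
        linarith [h1 v w, h3 v w, h4 v w]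
      · rcases le_or_gt (q * d T w) (d T v) with hqw | hqw
        · have e1 : f3 v w = (d T v : ℝ) ^ (r + 1) / q := by
            rw [hf3]; simp only; rw [if_pos hvD]
          have e2 : (d T v : ℝ) ^ r * d T w ≤ (d T v : ℝ) ^ (r + 1) / q := by
            rw [le_div_iff₀ hq0, pow_succ]
            have h5 : (q : ℝ) * d T w ≤ d T v := by exact_mod_cast hqw
            have h6 : (0 : ℝ) ≤ (d T v : ℝ) ^ r := by positivity
            nlinarith
          linarith [h1 v w, h2 v w, h4 v w]
        · have e0 : D < q * d T w := lt_trans hvD hqw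
          have e1 : f4 v w = (q : ℝ) ^ (r + 1) * (d T w : ℝ) ^ (r + 2) / D := by
            rw [hf4]; simp only; rw [if_pos hp, if_pos e0]
          have e2 : (d T v : ℝ) ^ r * d T w ≤ (q : ℝ) ^ (r + 1) * (d T w : ℝ) ^ (r + 2) / D := by
            rw [le_div_iff₀ hD0]
            have h5 : (d T v : ℝ) ≤ q * d T w := by exact_mod_cast hqw.le
            have h6 : (D : ℝ) ≤ q * d T w := by exact_mod_cast e0.le
            have h7 : (d T v : ℝ) ^ r ≤ (q * d T w) ^ r := pow_le_pow_left₀ hv0 h5 r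
            calc (d T v : ℝ) ^ r * d T w * D ≤ (q * d T w) ^ r * d T w * (q * d T w) := by
                  refine mul_le_mul (mul_le_mul_of_nonneg_right h7 hw0) h6 hD0.le (by positivity)
              _ = _ := by ring
          linarith [h1 v w, h2 v w, h3 v w]
  -- sum
  set B : ℝ := ∑ v ∈ univ.filter (fun v => D < q * d T v), (d T v : ℝ) ^ (r + 2) with hB
  have hBif : B = ∑ v, if D < q * d T v then (d T v : ℝ) ^ (r + 2) else 0 := by
    rw [hB, sum_filter]
  have s1 : ∑ v, ∑ w ∈ nb T v, f1 v w ≤ Fintype.card V * (D : ℝ) ^ (r + 2) := by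
    calc ∑ v, ∑ w ∈ nb T v, f1 v w ≤ ∑ _v : V, (D : ℝ) ^ (r + 2) := by
          refine sum_le_sum fun v _ => ?_
          rw [hf1]
          simp only
          rw [sum_const, nsmul_eq_mul]
          split_ifs with h
          · rw [pow_succ _ (r + 1), mul_comm]
            have : ((nb T v).card : ℝ) ≤ D := by exact_mod_cast h
            exact mul_le_mul_of_nonneg_left this (by positivity)
          · rw [mul_zero]; positivity
      _ = _ := by rw [sum_const, nsmul_eq_mul, card_univ]
  have s2 : ∑ v, ∑ w ∈ nb T v, f2 v w ≤ 1 / D * B := by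
    rw [hBif, mul_sum]
    refine sum_le_sum fun v _ => ?_
    refine (sum_le_univ_sum_of_nonneg (fun w => h2 v w)).trans ?_
    rw [hf2]
    simp only
    rw [sum_ite_eq' univ (par v), if_pos (mem_univ _)]
    split_ifs
    · rw [one_div, inv_mul_eq_div]
    · simp
  have s3 : ∑ v, ∑ w ∈ nb T v, f3 v w ≤ 1 / q * B := by
    rw [hBif, mul_sum]
    refine sum_le_sum fun v _ => ?_
    rw [hf3]
    simp only
    rw [sum_const, nsmul_eq_mul]
    have hc : ((nb T v).card : ℝ) = d T v := rfl
    rw [hc]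
    split_ifs with e1 e2 e2
    · rw [pow_succ _ (r + 1)]
      apply le_of_eq
      field_simp
    · exact absurd (by nlinarith : D < q * d T v) e2
    · rw [mul_zero]; positivity
    · simp
  have s4 : ∑ v, ∑ w ∈ nb T v, f4 v w ≤ (q : ℝ) ^ (r + 1) / D * B := by
    calc ∑ v, ∑ w ∈ nb T v, f4 v w ≤ ∑ v, ∑ w, f4 v w :=
          sum_le_sum fun v _ => sum_le_univ_sum_of_nonneg (fun w => h4 v w)
      _ = ∑ w, ∑ v, f4 v w := sum_comm
      _ ≤ _ := by
          rw [hBif, mul_sum]
          refine sum_le_sum fun w _ => ?_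
          rw [hf4]
          simp only
          rw [sum_ite_eq' univ (par w), if_pos (mem_univ _)]
          split_ifs
          · apply le_of_eq; ring
          · simp
  calc (∑ v, ∑ w ∈ (nb T v).filter (fun w => d T w ≤ d T v), (d T v : ℝ) ^ r * d T w)
      ≤ ∑ v, ∑ w ∈ (nb T v).filter (fun w => d T w ≤ d T v),
          (f1 v w + f2 v w + f3 v w + f4 v w) :=
        sum_le_sum fun v _ => sum_le_sum fun w hw => key v w hw
    _ ≤ ∑ v, ∑ w ∈ nb T v, (f1 v w + f2 v w + f3 v w + f4 v w) :=
        sum_le_sum fun v _ => sum_le_sum_of_subset_of_nonneg (filter_subset _ _)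
          fun w _ _ => by linarith [h1 v w, h2 v w, h3 v w, h4 v w]
    _ = ∑ v, ∑ w ∈ nb T v, f1 v w + ∑ v, ∑ w ∈ nb T v, f2 v w + ∑ v, ∑ w ∈ nb T v, f3 v w +
          ∑ v, ∑ w ∈ nb T v, f4 v w := by
        simp only [sum_add_distrib]
    _ ≤ _ := by
        have : (1 / (D : ℝ) + 1 / q + (q : ℝ) ^ (r + 1) / D) * B = 1 / D * B + 1 / q * B +
          (q : ℝ) ^ (r + 1) / D * B := by ring
        rw [this]
        linarith

end Pool.Agent.X160.Pd
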