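import Pool.Agent.X160.Pd.Star

/-!
# The inequality in terms of cardinals
-/

set_option autoImplicit false
set_option maxHeartbeats 400000
open Finset Classical

namespace Pool.Agent.X160.Pd

variable {V : Type*} [Fintype V] (T : SimpleGraph V)

theorem conv (hT : T.IsTree) {k : ℕ} (c : Fin k) :
    Nat.card {U : Finset V // Nonempty (T.induce (U : Set V) ≃g SimpleGraph.starGraph c)} =
      (SS T c).card ∧
    Nat.card {U : Finset V // Nonempty (T.induce (U : Set V) ≃g SimpleGraph.pathGraph k)} =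
      (PS T k).card ∧
    Nat.card {U : Finset V // U.card = k ∧ (T.induce (U : Set V)).IsTree} = (K T k).card ∧
    (K T k).card ≤ (SS T c).card + ((K T k).filter fun U => ¬ SL T U).card := by
  refine ⟨Nat.subtype_card _ fun U => by simp [SS], Nat.subtype_card _ fun U => by simp [PS],
    Nat.subtype_card _ fun U => ?_, ?_⟩
  · constructor
    · intro hU
      obtain ⟨-, hc, hcon⟩ := mem_filter.1 hU
      exact ⟨hc, hcon, hT.isAcyclic.induce _⟩
    · rintro ⟨hc, hU⟩
      exact mem_filter.2 ⟨mem_univ _, hc, hU.connected⟩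
  · have h0 := card_filter_add_card_filter_not (s := K T k) (fun U => SL T U)
    have h1 : ((K T k).filter fun U => SL T U).card ≤ (SS T c).card := by
      refine card_le_card fun U hU => ?_
      obtain ⟨hK, hSL⟩ := mem_filter.1 hU
      obtain ⟨-, hc, -⟩ := mem_filter.1 hK
      exact mem_filter.2 ⟨mem_univ _, star_iso T hT.isAcyclic c U hc hSL⟩
    omega

/-- The inequality. -/
theorem final (r : ℕ) (ε : ℝ) (hε : 0 < ε) : ∃ (C : ℝ) (N : ℕ), 0 ≤ C ∧
    ∀ (n : ℕ) (T : SimpleGraph (Fin n)) (c : Fin (r + 3)), T.IsTree → N ≤ n →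
      ∀ s P Z : ℕ,
        s = Nat.card {U : Finset (Fin n) //
          Nonempty (T.induce (U : Set (Fin n)) ≃g SimpleGraph.starGraph c)} →
        P = Nat.card {U : Finset (Fin n) //
          Nonempty (T.induce (U : Set (Fin n)) ≃g SimpleGraph.pathGraph (r + 3))} →
        Z = Nat.card {U : Finset (Fin n) // U.card = r + 3 ∧ (T.induce (U : Set (Fin n))).IsTree} →
        (Z : ℝ) ≤ s + (ε * s + C * P) ∧ 0 < s + P := by
  obtain ⟨C, N, hC, h⟩ := main r ε hε
  refine ⟨C, N, hC, fun n T c hT hn s P Z hs hP hZ => ?_⟩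
  obtain ⟨h1, h2, h3, h6⟩ := conv T hT c
  rw [← hs] at h1
  rw [← hP] at h2
  rw [← hZ] at h3
  obtain ⟨h4, h5⟩ := h n T c hT hn
  rw [← h1, ← h2] at h4 h5
  rw [← h1, ← h3] at h6
  refine ⟨?_, h5⟩
  have h7 := (Nat.cast_le (α := ℝ)).2 h6
  push_cast at h7
  linarith

end Pool.Agent.X160.Pd
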