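import Pool.Agent.X160.Pd.Vert

/-!
# Stars, and the main inequality
-/

set_option autoImplicit false
open Finset Classical

namespace Pool.Agent.X160.Pd

variable {V : Type*} [Fintype V] (T : SimpleGraph V)

omit [Fintype V] in
/-- No triangles. -/
theorem no_tri (hA : T.IsAcyclic) {a b c : V} (h1 : T.Adj a b) (h2 : T.Adj a c) (h3 : T.Adj b c) :
    False :=
  (hA.cliqueFree (n := 3) le_rfl) {a, b, c} (SimpleGraph.is3Clique_triple_iff.2 ⟨h1, h2, h3⟩)

/-- The sets spanning a star. -/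
noncomputable def SS {k : ℕ} (c : Fin k) : Finset (Finset V) :=
  univ.filter fun U => Nonempty (T.induce (U : Set V) ≃g SimpleGraph.starGraph c)

omit [Fintype V] in
theorem star_iso (hA : T.IsAcyclic) {k : ℕ} (c : Fin k) (U : Finset V) (hU : U.card = k)
    (hs : SL T U) : Nonempty (T.induce (U : Set V) ≃g SimpleGraph.starGraph c) := by
  obtain ⟨v, hv, hs⟩ := hs
  have hc : Fintype.card (U : Set V) = k := by
    rw [← hU]; simp
  let e0 : (U : Set V) ≃ Fin k := Fintype.equivFinOfCardEq hc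
  let e : (U : Set V) ≃ Fin k := e0.trans (Equiv.swap (e0 ⟨v, hv⟩) c)
  have hev : e ⟨v, hv⟩ = c := by simp [e]
  refine ⟨⟨e, ?_⟩⟩
  rintro ⟨a, ha⟩ ⟨b, hb⟩
  rw [SimpleGraph.starGraph_adj, ← hev]
  simp only [ne_eq, EmbeddingLike.apply_eq_iff_eq, Subtype.mk.injEq, SimpleGraph.comap_adj,
    Function.Embedding.subtype_apply]
  constructor
  · rintro ⟨hab, h | h⟩
    · subst h
      exact hs b hb (fun h => hab h.symm)
    · subst h
      exact (hs a ha hab).symm
  · intro h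
    refine ⟨h.ne, ?_⟩
    by_contra hcon
    push Not at hcon
    exact no_tri T hA (hs a ha hcon.1) (hs b hb hcon.2) h

theorem star_count (hA : T.IsAcyclic) {m : ℕ} (hm : 2 ≤ m) (c : Fin (m + 1)) :
    ∑ v, (d T v).choose m ≤ (SS T c).card := by
  have h1 : ∑ v, (d T v).choose m = (univ.sigma fun v => powersetCard m (nb T v)).card := by
    rw [card_sigma]
    exact sum_congr rfl fun v _ => by rw [card_powersetCard]; rfl
  rw [h1]
  refine card_le_card_of_injOn (fun q => insert q.1 q.2) ?_ ?_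
  · rintro ⟨v, A⟩ hq
    obtain ⟨-, hA'⟩ := mem_sigma.1 hq
    obtain ⟨hsub, hcard⟩ := mem_powersetCard.1 hA'
    have hvA : v ∉ A := fun h => by
      have := (mem_nb T).1 (hsub h)
      exact this.ne rfl
    simp only [SS, coe_filter, mem_univ, true_and, Set.mem_setOf_eq]
    refine star_iso T hA c _ (by rw [card_insert_of_notMem hvA, hcard]) ⟨v, mem_insert_self _ _, ?_⟩
    intro u hu huv
    rcases mem_insert.1 hu with h | h
    · exact absurd h huv
    · exact (mem_nb T).1 (hsub h)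
  · rintro ⟨v, A⟩ hq ⟨w, B⟩ hq' heq
    obtain ⟨-, hA'⟩ := mem_sigma.1 hq
    obtain ⟨-, hB'⟩ := mem_sigma.1 hq'
    obtain ⟨hsubA, hcardA⟩ := mem_powersetCard.1 hA'
    obtain ⟨hsubB, hcardB⟩ := mem_powersetCard.1 hB'
    simp only at heq hsubA hcardA hsubB hcardB
    have hvA : v ∉ A := fun h => ((mem_nb T).1 (hsubA h)).ne rfl
    have hwB : w ∉ B := fun h => ((mem_nb T).1 (hsubB h)).ne rfl
    have hvw : v = w := by
      by_contra hne
      have hwA : w ∈ A := by
        have : w ∈ insert v A := by rw [heq]; exact mem_insert_self _ _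
        exact (mem_insert.1 this).resolve_left (Ne.symm hne)
      obtain ⟨a, haA, haw⟩ : ∃ a ∈ A, a ≠ w := exists_mem_ne (by omega) w
      have haB : a ∈ B := by
        have : a ∈ insert w B := by rw [← heq]; exact mem_insert_of_mem haA
        exact (mem_insert.1 this).resolve_left haw
      exact no_tri T hA ((mem_nb T).1 (hsubA hwA)) ((mem_nb T).1 (hsubA haA))
        ((mem_nb T).1 (hsubB haB))
    subst hvw
    have : A = B := by
      have h2 := congrArg (fun s => s.erase v) heq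
      simpa [erase_insert hvA, erase_insert hwB] using h2
    rw [this]

/-- Powers and binomial coefficients. -/
theorem pow_le_choose' (m x : ℕ) (hx : 2 * m ≤ x) :
    (x : ℝ) ^ m ≤ (2 : ℝ) ^ m * (m.factorial : ℝ) * (x.choose m : ℝ) := by
  have h := Nat.pow_le_choose (α := ℝ) m x
  have hf : (0 : ℝ) < (m.factorial : ℝ) := by exact_mod_cast m.factorial_pos
  rw [div_le_iff₀ hf] at h
  have h2 : (x : ℝ) / 2 ≤ ((x + 1 - m : ℕ) : ℝ) := by
    have : x ≤ 2 * (x + 1 - m) := by omega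
    have h3 : (x : ℝ) ≤ 2 * ((x + 1 - m : ℕ) : ℝ) := by exact_mod_cast this
    linarith
  have h3 : ((x : ℝ) / 2) ^ m ≤ ((x + 1 - m : ℕ) : ℝ) ^ m := pow_le_pow_left₀ (by positivity) h2 m
  have h4 : ((x : ℝ) / 2) ^ m ≤ (x.choose m : ℝ) * (m.factorial : ℝ) := h3.trans (by exact_mod_cast h)
  rw [div_pow, div_le_iff₀ (by positivity)] at h4
  linarith

theorem sum_le_star (hA : T.IsAcyclic) {m : ℕ} (hm : 2 ≤ m) (c : Fin (m + 1)) (A : Finset V)
    (hd : ∀ v ∈ A, 2 * m ≤ d T v) :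
    ∑ v ∈ A, (d T v : ℝ) ^ m ≤ (2 : ℝ) ^ m * (m.factorial : ℝ) * ((SS T c).card : ℝ) := by
  calc ∑ v ∈ A, (d T v : ℝ) ^ m
      ≤ ∑ v ∈ A, (2 : ℝ) ^ m * (m.factorial : ℝ) * ((d T v).choose m : ℝ) :=
        sum_le_sum fun v hv => pow_le_choose' m _ (hd v hv)
    _ ≤ ∑ v, (2 : ℝ) ^ m * (m.factorial : ℝ) * ((d T v).choose m : ℝ) :=
        sum_le_univ_sum_of_nonneg fun v => by positivity
    _ = (2 : ℝ) ^ m * (m.factorial : ℝ) * ((∑ v, (d T v).choose m : ℕ) : ℝ) := by
        rw [← mul_sum]; push_cast; rfl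
    _ ≤ _ := by
        refine mul_le_mul_of_nonneg_left ?_ (by positivity)
        exact_mod_cast star_count T hA hm c

/-- The main inequality. -/
theorem main (r : ℕ) (ε : ℝ) (hε : 0 < ε) : ∃ (C : ℝ) (N : ℕ), 0 ≤ C ∧
    ∀ (n : ℕ) (T : SimpleGraph (Fin n)) (c : Fin (r + 3)), T.IsTree → N ≤ n →
      (((K T (r + 3)).filter fun U => ¬ SL T U).card : ℝ) ≤ ε * (SS T c).card +
        C * (PS T (r + 3)).card ∧ 0 < (SS T c).card + (PS T (r + 3)).card := by
  set C0 : ℝ := (2 : ℝ) ^ (r + 2) * ((r + 2).factorial : ℝ) with hC0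
  have hC0p : 0 < C0 := by rw [hC0]; have := (r + 2).factorial_pos; positivity
  set M : ℝ := ((r : ℝ) + 3) ^ r with hM
  have hMp : 0 < M := by rw [hM]; positivity
  obtain ⟨q, hq1, hq⟩ : ∃ q : ℕ, 1 ≤ q ∧ M * C0 * 4 / ε ≤ q := by
    obtain ⟨q, hq⟩ := exists_nat_ge (M * C0 * 4 / ε)
    exact ⟨q + 1, by omega, hq.trans (by push_cast; linarith)⟩
  obtain ⟨D, hD1, hDq, hD⟩ : ∃ D : ℕ, 1 ≤ D ∧ 2 * (r + 3) * q ≤ D ∧
      M * C0 * (1 + (q : ℝ) ^ (r + 1)) * 4 / ε ≤ D := by
    obtain ⟨D, hD⟩ := exists_nat_ge (M * C0 * (1 + (q : ℝ) ^ (r + 1)) * 4 / ε)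
    exact ⟨D + 2 * (r + 3) * q + 1, by omega, by omega, hD.trans (by
      push_cast
      have : (0 : ℝ) ≤ 2 * ((r : ℝ) + 3) * q := by positivity
      linarith)⟩
  obtain ⟨E, hE1, hEr, hE⟩ : ∃ E : ℕ, 1 ≤ E ∧ 2 * (r + 3) ≤ E ∧
      M * (D : ℝ) ^ (r + 2) * (r + 1) * C0 * 2 / ε ≤ E := by
    obtain ⟨E, hE⟩ := exists_nat_ge (M * (D : ℝ) ^ (r + 2) * (r + 1) * C0 * 2 / ε)
    exact ⟨E + 2 * (r + 3) + 1, by omega, by omega, hE.trans (by
      push_cast
      have : (0 : ℝ) ≤ 2 * ((r : ℝ) + 3) := by positivity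
      linarith)⟩
  have hq0 : (0 : ℝ) < q := by exact_mod_cast hq1
  have hD0 : (0 : ℝ) < D := by exact_mod_cast hD1
  have hE0 : (0 : ℝ) < E := by exact_mod_cast hE1
  refine ⟨M * (D : ℝ) ^ (r + 2) * (r + 3), (r + 2) * E ^ (r + 1) + 1, by positivity, ?_⟩
  intro n T c hT hn
  have hA := hT.isAcyclic
  set s : ℝ := ((SS T c).card : ℝ) with hs
  have hs0 : 0 ≤ s := by rw [hs]; positivity
  set P : ℝ := ((PS T (r + 3)).card : ℝ) with hP
  -- number of vertices
  have hv : (n : ℝ) ≤ (r + 3) * P + (r + 1) / E * (C0 * s) := by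
    have h1 := card_le T hT E r hE1 (by rw [Fintype.card_fin]; omega)
    rw [Fintype.card_fin] at h1
    have h2 : (n : ℝ) ≤ (r + 3) * P +
        ∑ h ∈ univ.filter (fun h => E < d T h), ((r : ℝ) + 1) * (d T h * (E : ℝ) ^ r) := by
      rw [hP]
      have h1' := (Nat.cast_le (α := ℝ)).2 h1
      push_cast at h1'
      exact h1'
    refine h2.trans (add_le_add le_rfl ?_)
    have h3 : ∑ h ∈ univ.filter (fun h => E < d T h), (d T h : ℝ) ^ (r + 2) ≤ C0 * s :=
      sum_le_star T hA (m := r + 2) (by omega) c _ fun v hv => by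
        have := (mem_filter.1 hv).2
        omega
    calc _ ≤ ∑ h ∈ univ.filter (fun h => E < d T h), ((r : ℝ) + 1) / E * (d T h : ℝ) ^ (r + 2) := by
          refine sum_le_sum fun v hv => ?_
          have h4 : (E : ℝ) ≤ d T v := by exact_mod_cast (mem_filter.1 hv).2.le
          have h5 : (E : ℝ) ^ (r + 1) ≤ (d T v : ℝ) ^ (r + 1) := pow_le_pow_left₀ hE0.le h4 _
          rw [div_mul_eq_mul_div, le_div_iff₀ hE0]
          have h6 : (d T v : ℝ) * (E : ℝ) ^ (r + 1) ≤ (d T v : ℝ) ^ (r + 2) := by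
            rw [pow_succ' (d T v : ℝ) (r + 1)]
            exact mul_le_mul_of_nonneg_left h5 (Nat.cast_nonneg _)
          calc ((r : ℝ) + 1) * (d T v * (E : ℝ) ^ r) * E
              = ((r : ℝ) + 1) * ((d T v : ℝ) * (E : ℝ) ^ (r + 1)) := by ring
            _ ≤ _ := mul_le_mul_of_nonneg_left h6 (by positivity)
      _ = ((r : ℝ) + 1) / E * ∑ h ∈ univ.filter (fun h => E < d T h), (d T h : ℝ) ^ (r + 2) := by
          rw [mul_sum]
      _ ≤ _ := mul_le_mul_of_nonneg_left h3 (by positivity)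
  -- the non-stars
  have hns : (((K T (r + 3)).filter fun U => ¬ SL T U).card : ℝ) ≤
      M * (n * (D : ℝ) ^ (r + 2) + (1 / D + 1 / q + (q : ℝ) ^ (r + 1) / D) * (C0 * s)) := by
    have h1 := card_nonstar T r
    have h2 : (((K T (r + 3)).filter fun U => ¬ SL T U).card : ℝ) ≤
        ∑ v, ∑ w ∈ (nb T v).filter (fun w => d T w ≤ d T v),
          (d T w : ℝ) * (((r : ℝ) + 3) * d T v) ^ r := by exact_mod_cast h1
    have h3 := est T hT r q D hq1 hD1
    rw [Fintype.card_fin] at h3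
    have h4 : ∑ v ∈ univ.filter (fun v => D < q * d T v), (d T v : ℝ) ^ (r + 2) ≤ C0 * s :=
      sum_le_star T hA (m := r + 2) (by omega) c _ fun v hv => by
        have := (mem_filter.1 hv).2
        by_contra hlt
        push Not at hlt
        have h5 : q * d T v ≤ q * (2 * (r + 3)) := Nat.mul_le_mul_left _ (by omega)
        have h6 : q * (2 * (r + 3)) = 2 * (r + 3) * q := by ring
        omega
    calc _ ≤ _ := h2
      _ = M * ∑ v, ∑ w ∈ (nb T v).filter (fun w => d T w ≤ d T v), (d T v : ℝ) ^ r * d T w := by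
          rw [mul_sum]
          refine sum_congr rfl fun v _ => ?_
          rw [mul_sum]
          refine sum_congr rfl fun w _ => ?_
          rw [mul_pow, hM]
          ring
      _ ≤ _ := by
          refine mul_le_mul_of_nonneg_left (h3.trans (add_le_add le_rfl ?_)) hMp.le
          exact mul_le_mul_of_nonneg_left h4 (by positivity)
  constructor
  · have e1 : M * ((1 / D + 1 / q + (q : ℝ) ^ (r + 1) / D) * C0) ≤ ε / 2 := by
      have a1 : M * C0 / q ≤ ε / 4 := by
        rw [div_le_iff₀ hq0]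
        rw [div_le_iff₀ hε] at hq
        linarith
      have a2 : M * C0 * (1 + (q : ℝ) ^ (r + 1)) / D ≤ ε / 4 := by
        rw [div_le_iff₀ hD0]
        rw [div_le_iff₀ hε] at hD
        linarith
      calc _ = M * C0 / q + M * C0 * (1 + (q : ℝ) ^ (r + 1)) / D := by ring
        _ ≤ _ := by linarith
    have e2 : M * (D : ℝ) ^ (r + 2) * ((r + 1) / E * C0) ≤ ε / 2 := by
      have : M * (D : ℝ) ^ (r + 2) * ((r + 1) / E * C0) =
          M * (D : ℝ) ^ (r + 2) * (r + 1) * C0 / E := by ring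
      rw [this, div_le_iff₀ hE0]
      rw [div_le_iff₀ hε] at hE
      linarith
    have e3 : M * (n * (D : ℝ) ^ (r + 2)) ≤
        M * (D : ℝ) ^ (r + 2) * ((r + 3) * P + (r + 1) / E * (C0 * s)) := by
      calc M * (n * (D : ℝ) ^ (r + 2)) = M * (D : ℝ) ^ (r + 2) * n := by ring
        _ ≤ _ := mul_le_mul_of_nonneg_left hv (by positivity)
    have e4 := mul_le_mul_of_nonneg_right e1 hs0
    have e5 := mul_le_mul_of_nonneg_right e2 hs0
    calc _ ≤ _ := hns
      _ = M * (n * (D : ℝ) ^ (r + 2)) +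
          M * ((1 / D + 1 / q + (q : ℝ) ^ (r + 1) / D) * C0) * s := by ring
      _ ≤ M * (D : ℝ) ^ (r + 2) * ((r + 3) * P + (r + 1) / E * (C0 * s)) + ε / 2 * s :=
          add_le_add e3 e4
      _ = M * (D : ℝ) ^ (r + 2) * (r + 3) * P + M * (D : ℝ) ^ (r + 2) * ((r + 1) / E * C0) * s +
          ε / 2 * s := by ring
      _ ≤ M * (D : ℝ) ^ (r + 2) * (r + 3) * P + ε / 2 * s + ε / 2 * s := by linarith
      _ = _ := by ring
  · by_contra hcon
    have h1 : (SS T c).card = 0 := by omega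
    have h2 : (PS T (r + 3)).card = 0 := by omega
    have h3 : s = 0 := by rw [hs, h1]; simp
    have h4 : P = 0 := by rw [hP, h2]; simp
    rw [h3, h4] at hv
    have : (1 : ℝ) ≤ n := by exact_mod_cast (by omega : 1 ≤ n)
    simp only [mul_zero, add_zero] at hv
    linarith

end Pool.Agent.X160.Pd
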