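import Pool.Agent.X160.Pd.Conn

/-!
# Most vertices lie on paths or near vertices of large degree
-/

set_option autoImplicit false
open Finset Classical

namespace Pool.Agent.X160.Pd

variable {V : Type*} [Fintype V] (T : SimpleGraph V)

/-- Joined by a walk whose vertices before the last one have degree at most D. -/
def Cn (D : ℕ) : ℕ → V → V → Prop
  | 0, x, y => x = y
  | j + 1, x, y => d T x ≤ D ∧ ∃ z, T.Adj x z ∧ Cn D j z y

theorem snoc (D : ℕ) : ∀ (j : ℕ) (x y z : V), Cn T D j x y → d T y ≤ D → T.Adj y z →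
    Cn T D (j + 1) x z := by
  intro j
  induction j with
  | zero =>
    intro x y z h hy hyz
    have h' : x = y := h
    subst h'
    exact ⟨hy, z, hyz, rfl⟩
  | succ j ih =>
    intro x y z h hy hyz
    obtain ⟨hx, w, hxw, hw⟩ := h
    exact ⟨hx, w, hxw, ih w y z hw hy hyz⟩

theorem rev (D : ℕ) : ∀ (j : ℕ) (x y : V), Cn T D (j + 1) x y → ∃ z, T.Adj y z ∧ Cn T D j z x := by
  intro j
  induction j with
  | zero =>
    intro x y h
    obtain ⟨-, z, hxz, hz⟩ := h
    have h' : z = y := hz
    subst h'
    exact ⟨x, hxz.symm, rfl⟩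
  | succ j ih =>
    intro x y h
    obtain ⟨-, z, hxz, hz⟩ := h
    obtain ⟨w, hyw, hw⟩ := ih z y hz
    exact ⟨w, hyw, snoc T D j w z x hw hz.1 hxz.symm⟩

theorem card_fwd (D : ℕ) : ∀ (j : ℕ) (x : V), (univ.filter fun y => Cn T D j x y).card ≤ D ^ j := by
  intro j
  induction j with
  | zero =>
    intro x
    have : (univ.filter fun y => Cn T D 0 x y) ⊆ {x} := by
      intro y hy
      have h : x = y := (mem_filter.1 hy).2
      exact mem_singleton.2 h.symm
    calc _ ≤ ({x} : Finset V).card := card_le_card this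
      _ = D ^ 0 := by simp
  | succ j ih =>
    intro x
    by_cases hx : d T x ≤ D
    · have hsub : (univ.filter fun y => Cn T D (j + 1) x y) ⊆
          (nb T x).biUnion fun z => univ.filter fun y => Cn T D j z y := by
        intro y hy
        obtain ⟨-, z, hxz, hz⟩ := (mem_filter.1 hy).2
        exact mem_biUnion.2 ⟨z, (mem_nb T).2 hxz, mem_filter.2 ⟨mem_univ _, hz⟩⟩
      calc _ ≤ _ := card_le_card hsub
        _ ≤ ∑ z ∈ nb T x, (univ.filter fun y => Cn T D j z y).card := card_biUnion_le
        _ ≤ ∑ _z ∈ nb T x, D ^ j := sum_le_sum fun z _ => ih z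
        _ = d T x * D ^ j := by rw [sum_const, smul_eq_mul]; rfl
        _ ≤ D * D ^ j := Nat.mul_le_mul_right _ hx
        _ = D ^ (j + 1) := by ring
    · have : (univ.filter fun y => Cn T D (j + 1) x y) = ∅ := by
        rw [filter_eq_empty_iff]
        intro y _ h
        exact hx h.1
      rw [this]
      simp

theorem card_bwd (D j : ℕ) (h : V) :
    (univ.filter fun x => Cn T D (j + 1) x h).card ≤ d T h * D ^ j := by
  have hsub : (univ.filter fun x => Cn T D (j + 1) x h) ⊆
      (nb T h).biUnion fun z => univ.filter fun y => Cn T D j z y := by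
    intro y hy
    obtain ⟨z, hz, hzy⟩ := rev T D j y h (mem_filter.1 hy).2
    exact mem_biUnion.2 ⟨z, (mem_nb T).2 hz, mem_filter.2 ⟨mem_univ _, hzy⟩⟩
  calc _ ≤ _ := card_le_card hsub
    _ ≤ ∑ z ∈ nb T h, (univ.filter fun y => Cn T D j z y).card := card_biUnion_le
    _ ≤ ∑ _z ∈ nb T h, D ^ j := sum_le_sum fun z _ => card_fwd T D j z
    _ = d T h * D ^ j := by rw [sum_const, smul_eq_mul]; rfl

theorem card_bwd' (D j r : ℕ) (hj : j ≤ r) (hD : 1 ≤ D) (h : V) (hh : D < d T h) :
    (univ.filter fun x => Cn T D j x h).card ≤ d T h * D ^ r := by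
  rcases j with _ | j
  · have : (univ.filter fun x => Cn T D 0 x h) ⊆ {h} := by
      intro y hy
      have h' : y = h := (mem_filter.1 hy).2
      exact mem_singleton.2 h'
    calc _ ≤ ({h} : Finset V).card := card_le_card this
      _ = 1 := by simp
      _ ≤ d T h * D ^ r := Nat.mul_pos (by omega) (pow_pos (by omega) _)
  · exact (card_bwd T D j h).trans (Nat.mul_le_mul_left _ (Nat.pow_le_pow_right hD (by omega)))

/-- Vertices close to a vertex of large degree. -/
noncomputable def bad (D r : ℕ) : Finset V :=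
  univ.filter fun x => ∃ j ≤ r, ∃ h, D < d T h ∧ Cn T D j x h

theorem card_bad (D r : ℕ) (hD : 1 ≤ D) : (bad T D r).card ≤
    ∑ h ∈ univ.filter (fun h => D < d T h), (r + 1) * (d T h * D ^ r) := by
  have hsub : bad T D r ⊆ (univ.filter (fun h => D < d T h)).biUnion fun h =>
      (range (r + 1)).biUnion fun j => univ.filter fun x => Cn T D j x h := by
    intro x hx
    obtain ⟨j, hj, h, hh, hc⟩ := (mem_filter.1 hx).2
    exact mem_biUnion.2 ⟨h, mem_filter.2 ⟨mem_univ _, hh⟩, mem_biUnion.2
      ⟨j, mem_range.2 (by omega), mem_filter.2 ⟨mem_univ _, hc⟩⟩⟩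
  refine (card_le_card hsub).trans (card_biUnion_le.trans (sum_le_sum fun h hh => ?_))
  refine card_biUnion_le.trans ?_
  calc _ ≤ ∑ _j ∈ range (r + 1), d T h * D ^ r := sum_le_sum fun j hj =>
        card_bwd' T D j r (by have := mem_range.1 hj; omega) hD h (mem_filter.1 hh).2
    _ = _ := by rw [sum_const, smul_eq_mul, card_range]

/-- The sets spanning a path of `k` vertices. -/
noncomputable def PS (k : ℕ) : Finset (Finset V) :=
  univ.filter fun U => Nonempty (T.induce (U : Set V) ≃g SimpleGraph.pathGraph k)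

theorem reach (D r : ℕ) (x : V) (hx : x ∉ bad T D r) {y : V} (p : T.Walk x y) :
    ∀ i, i ≤ p.length → i ≤ r + 1 → Cn T D i x (p.getVert i) := by
  intro i
  induction i with
  | zero => intro _ _; rw [SimpleGraph.Walk.getVert_zero]; rfl
  | succ i ih =>
    intro h1 h2
    have h := ih (by omega) (by omega)
    refine snoc T D i x _ _ h ?_ (p.adj_getVert_succ (by omega))
    by_contra hlt
    exact hx (mem_filter.2 ⟨mem_univ _, i, by omega, _, by omega, h⟩)

theorem exists_path (hT : T.IsTree) (D r : ℕ) (hD : 1 ≤ D)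
    (hn : (r + 2) * D ^ (r + 1) < Fintype.card V) (x : V) (hx : x ∉ bad T D r) :
    ∃ U ∈ PS T (r + 3), x ∈ U := by
  -- a long path
  have hlong : ∃ y, ∃ p : T.Walk x y, p.IsPath ∧ r + 2 ≤ p.length := by
    by_contra hcon
    push Not at hcon
    have hsub : (univ : Finset V) ⊆ (range (r + 2)).biUnion fun j =>
        univ.filter fun y => Cn T D j x y := by
      intro y _
      obtain ⟨p, hp, -⟩ := hT.existsUnique_path x y
      have hl := hcon y p hp
      have := reach T D r x hx p p.length le_rfl (by omega)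
      rw [SimpleGraph.Walk.getVert_length] at this
      exact mem_biUnion.2 ⟨p.length, mem_range.2 hl, mem_filter.2 ⟨mem_univ _, this⟩⟩
    have h1 : Fintype.card V ≤ (r + 2) * D ^ (r + 1) := by
      calc Fintype.card V = (univ : Finset V).card := card_univ.symm
        _ ≤ _ := card_le_card hsub
        _ ≤ ∑ j ∈ range (r + 2), (univ.filter fun y => Cn T D j x y).card := card_biUnion_le
        _ ≤ ∑ _j ∈ range (r + 2), D ^ (r + 1) := sum_le_sum fun j hj =>
            (card_fwd T D j x).trans (Nat.pow_le_pow_right hD (by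
              have := mem_range.1 hj; omega))
        _ = _ := by rw [sum_const, smul_eq_mul, card_range]
    omega
  obtain ⟨y, p, hp, hl⟩ := hlong
  have hinj : ∀ i j : Fin (r + 3), p.getVert i = p.getVert j → i = j := by
    intro i j hij
    have := hp.getVert_injOn (show (i : ℕ) ≤ p.length by omega) (show (j : ℕ) ≤ p.length by omega) hij
    exact Fin.ext this
  have hadj : ∀ i j : ℕ, i < j → j ≤ p.length → T.Adj (p.getVert i) (p.getVert j) → j = i + 1 := by
    intro i j hij hj hA
    have h1 : p.getVert j ∈ (p.drop i).support := by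
      have h2 := (p.drop i).getVert_mem_support (j - i)
      rw [SimpleGraph.Walk.drop_getVert] at h2
      rwa [show i + (j - i) = j by omega] at h2
    have h3 := hT.isAcyclic.eq_snd_of_adj_start (hp.drop i) hA h1
    have h4 : (p.drop i).snd = p.getVert (i + 1) := SimpleGraph.Walk.drop_getVert p i 1
    rw [h4] at h3
    exact hp.getVert_injOn (show j ≤ p.length from hj) (show i + 1 ≤ p.length by omega) h3
  refine ⟨univ.image fun i : Fin (r + 3) => p.getVert i, ?_, mem_image.2
    ⟨0, mem_univ _, by simp⟩⟩
  refine mem_filter.2 ⟨mem_univ _, ⟨RelIso.symm ?_⟩⟩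
  refine ⟨Equiv.ofBijective (fun i : Fin (r + 3) => ⟨p.getVert i, by
    simp only [coe_image, coe_univ, Set.image_univ, Set.mem_range, exists_apply_eq_apply]⟩)
      ⟨fun i j h => hinj i j (Subtype.ext_iff.1 h), ?_⟩, ?_⟩
  · rintro ⟨u, hu⟩
    simp only [coe_image, coe_univ, Set.image_univ, Set.mem_range] at hu
    obtain ⟨i, rfl⟩ := hu
    exact ⟨i, rfl⟩
  · intro i j
    simp only [Equiv.ofBijective_apply, SimpleGraph.comap_adj, Function.Embedding.subtype_apply,
      SimpleGraph.pathGraph_adj]
    constructor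
    · intro h
      rcases lt_trichotomy (i : ℕ) j with hij | hij | hij
      · exact Or.inl (hadj i j hij (by omega) h).symm
      · have : i = j := Fin.ext hij
        subst this
        exact absurd rfl h.ne
      · exact Or.inr (hadj j i hij (by omega) h.symm).symm
    · rintro (h | h)
      · have := p.adj_getVert_succ (i := i) (by omega)
        rwa [h] at this
      · have := p.adj_getVert_succ (i := j) (by omega)
        rw [h] at this
        exact this.symm

theorem card_le (hT : T.IsTree) (D r : ℕ) (hD : 1 ≤ D)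
    (hn : (r + 2) * D ^ (r + 1) < Fintype.card V) :
    Fintype.card V ≤ (r + 3) * (PS T (r + 3)).card +
      ∑ h ∈ univ.filter (fun h => D < d T h), (r + 1) * (d T h * D ^ r) := by
  have hsub : (univ : Finset V) ⊆ (PS T (r + 3)).biUnion id ∪ bad T D r := by
    intro x _
    by_cases hx : x ∈ bad T D r
    · exact mem_union_right _ hx
    · obtain ⟨U, hU, hxU⟩ := exists_path T hT D r hD hn x hx
      exact mem_union_left _ (mem_biUnion.2 ⟨U, hU, hxU⟩)
  calc Fintype.card V = (univ : Finset V).card := card_univ.symm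
    _ ≤ _ := card_le_card hsub
    _ ≤ _ := card_union_le _ _
    _ ≤ (r + 3) * (PS T (r + 3)).card + _ := by
        refine Nat.add_le_add ?_ (card_bad T D r hD)
        calc _ ≤ ∑ U ∈ PS T (r + 3), (id U).card := card_biUnion_le
          _ = ∑ _U ∈ PS T (r + 3), (r + 3) := by
              refine sum_congr rfl fun U hU => ?_
              obtain ⟨e⟩ := (mem_filter.1 hU).2
              have := Fintype.card_congr e.toEquiv
              rw [Fintype.card_fin] at this
              rw [← this]
              simp
          _ = _ := by rw [sum_const, smul_eq_mul, mul_comm]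

end Pool.Agent.X160.Pd
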